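import Pool.Agent.Lib.MP_8eabdf_an.Stmt
import Pool.Agent.Lib.MP_8eabdf_an.Asm

/-!
# MP_8eabdf_an: negative answer to Q1 (and so to Q2)

For some `β ∈ [1,2]` the real-analytic hypersurface
`M_β : Im w = |z|⁴ - |z|⁶ + |w|² |z + β z²|²` in `ℂ²` has `0` as an isolated weakly pseudoconvex
point, but no real-analytic curve in `M_β` through `0` (smooth or singular at `0`) is a
Chern-Moser chain at all of its points other than `0`.

Proof (files in `Pool/Agent/Lib/MP_8eabdf_an`): `CE1`-`CE7`: Chern-Moser normal form implies an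
explicit second order equation for chains (`chain_eq`); `Reg*`: a curve with `w = o(z)` cannot
satisfy it (`reg_out`); `F*`, `TH`: a curve with `z = O(w)` gives a solution of a formal system
whose unique solution is a power series with coefficients polynomial in `β`; the linearisation at
`β = 0` has factorial growth, so by Baire and Lagrange interpolation the series diverges for some
`β ∈ [1,2]`; `LV`: Levi form; `Asm`: assembly.
-/

namespace Pool.Agent.Results.MP_8eabdf_an.NoChainThroughWeakPoint

open MP8eabdf

theorem result : ∃ β ∈ Set.Icc (1 : ℝ) 2, IsIsolatedWeaklyPseudoconvex (rb β) 0 ∧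
    ¬ ∃ (ε : ℝ) (c : ℝ → ℂ × ℂ), IsChainCurveThrough {q | rb β q = 0} 0 ε c := by
  obtain ⟨β, hβ, hbad⟩ := exists_bad_beta
  refine ⟨β, hβ, rb_isolated β, ?_⟩
  rintro ⟨ε, c, h⟩
  exact no_curve hbad ⟨ε, c, h⟩

end Pool.Agent.Results.MP_8eabdf_an.NoChainThroughWeakPoint
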